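import Pool.Agent.H25.EH

namespace Pool.Agent.Results.MP_6ea067_co.Value

open Finset

/-- `x` with the sign `+` when `s` is true and `-` otherwise. -/
def sg {G : Type*} [Neg G] (s : Bool) (x : G) : G := if s then x else -x

/-- Zero is not in the restricted signed `3`-fold sumset of `A`. -/
def Free {p : ℕ} (A : Finset (ZMod p)) : Prop :=
  ∀ a ∈ A, ∀ b ∈ A, ∀ c ∈ A, a ≠ b → a ≠ c → b ≠ c →
    ∀ s t u : Bool, sg s a + sg t b + sg u c ≠ 0

instance {p : ℕ} (A : Finset (ZMod p)) : Decidable (Free A) := by unfold Free; infer_instance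

lemma sg_of {p : ℕ} {A : Finset (ZMod p)} {x : ZMod p} (h : x ∈ A ∪ A.image Neg.neg) :
    ∃ a ∈ A, ∃ s, sg s a = x ∧ (a = x ∨ a = -x) := by
  rcases mem_union.1 h with h | h
  · exact ⟨x, h, true, rfl, Or.inl rfl⟩
  · obtain ⟨a, ha, rfl⟩ := mem_image.1 h
    exact ⟨a, ha, false, rfl, Or.inr (neg_neg a).symm⟩

lemma main (p : ℕ) [Fact p.Prime] (hp : 5 ≤ p) (A : Finset (ZMod p)) (hA : Free A)
    (h0 : (0 : ZMod p) ∉ A) (h2 : 2 ≤ A.card) :
    4 * A.card ≤ p + 3 + (A ∩ A.image Neg.neg).card := by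
  have nz : ∀ k : ℕ, 0 < k → k < 5 → ∀ x : ZMod p, (k : ZMod p) * x = 0 → x = 0 := by
    intro k h1 h2 x hx
    refine (mul_eq_zero.1 hx).resolve_left (fun e => ?_)
    have := Nat.le_of_dvd h1 ((ZMod.natCast_eq_zero_iff _ _).1 e)
    omega
  set B := A ∪ A.image Neg.neg with hB
  set D := A ∩ A.image Neg.neg with hD
  have hBD : B.card + D.card = 2 * A.card := by
    rw [hB, hD, card_union_add_card_inter, card_image_of_injective _ neg_injective]; omega
  have hB0 : ∀ x ∈ B, x ≠ 0 := by
    rintro x hx rfl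
    obtain ⟨a, ha, -, -, h | h⟩ := sg_of hx
    · exact h0 (h ▸ ha)
    · exact h0 (by simpa [h] using ha)
  have hneg : ∀ x ∈ B, -x ∈ B := by
    intro x hx
    obtain ⟨a, ha, -, -, h | h⟩ := sg_of hx
    · exact mem_union_right _ (mem_image.2 ⟨a, ha, by rw [h]⟩)
    · exact mem_union_left _ (h ▸ ha)
  have cls : ∀ x y z a b : ZMod p, z ≠ 0 → x + y + z = 0 → x ≠ y → (a = x ∨ a = -x) →
      (b = y ∨ b = -y) → a ≠ b := by
    rintro x y z a b hz hs hxy (rfl | rfl) (rfl | rfl) e
    · exact hxy e
    · exact hz (by linear_combination hs - e)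
    · exact hz (by linear_combination hs + e)
    · exact hxy (neg_injective e)
  have key : ∀ x ∈ B, ∀ y ∈ B, ∀ z ∈ B, x ≠ y → x ≠ z → y ≠ z → x + y + z ≠ 0 := by
    intro x hx y hy z hz h1 h2 h3 hs
    obtain ⟨a, ha, s, e1, f1⟩ := sg_of hx
    obtain ⟨b, hb, t, e2, f2⟩ := sg_of hy
    obtain ⟨c, hc, u, e3, f3⟩ := sg_of hz
    refine hA a ha b hb c hc (cls x y z a b (hB0 z hz) hs h1 f1 f2)
      (cls x z y a c (hB0 y hy) (by linear_combination hs) h2 f1 f3)
      (cls y z x b c (hB0 x hx) (by linear_combination hs) h3 f2 f3) s t u ?_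
    rw [e1, e2, e3, hs]
  have key2 : ∀ w ∈ D, ∀ y ∈ B, y ≠ w + w := by
    rintro w hw y hy rfl
    obtain ⟨h1, h2⟩ := mem_inter.1 hw
    obtain ⟨v, hv, hvw⟩ := mem_image.1 h2
    have hw0 : w ≠ 0 := hB0 w (mem_union_left _ h1)
    obtain ⟨c, hc, u, e3, f3⟩ := sg_of hy
    obtain rfl : v = -w := by rw [← hvw, neg_neg]
    refine hA w h1 (-w) hv c hc (fun e => hw0 (nz 2 (by omega) (by omega) w ?_)) (fun e => ?_)
      (fun e => ?_) false true u ?_
    · push_cast; linear_combination e
    · rcases f3 with f | f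
      · exact hw0 (by linear_combination -e - f)
      · exact hw0 (nz 3 (by omega) (by omega) w (by push_cast; linear_combination e + f))
    · rcases f3 with f | f
      · exact hw0 (nz 3 (by omega) (by omega) w (by push_cast; linear_combination -e - f))
      · exact hw0 (by linear_combination e + f)
    · rw [e3]; simp [sg]
  have hAB : A.card ≤ B.card := card_le_card subset_union_left
  have hle : 2 * B.card ≤ p + 3 := by
    by_contra hcon
    obtain ⟨w, hw⟩ : B.Nonempty := card_pos.1 (by omega)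
    have inj : Function.Injective (fun x : ZMod p => -w - x) := fun a b e => by simpa using e
    have h1 := card_union_add_card_inter B (B.image fun x => -w - x)
    rw [card_image_of_injective _ inj] at h1
    have h3 : (B ∪ B.image fun x => -w - x).card ≤ p := by
      simpa [ZMod.card] using card_le_univ (B ∪ B.image fun x => -w - x)
    have h4 : (B ∩ B.image fun x => -w - x) ⊆ {w, -w - w, -w / 2} := by
      intro x hx
      obtain ⟨h5, h6⟩ := mem_inter.1 hx
      obtain ⟨y, hy, e⟩ := mem_image.1 h6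
      by_contra hn
      simp only [mem_insert, mem_singleton, not_or] at hn
      refine key x h5 y hy w hw (fun f => hn.2.2 ?_) hn.1 (fun f => hn.2.1 ?_)
        (by linear_combination -e)
      · have : (2 : ZMod p) ≠ 0 := fun e => by simpa using nz 2 (by omega) (by omega) 1 (by simpa using e)
        field_simp
        linear_combination f - e
      · rw [← e, f]
    have := (card_le_card h4).trans card_le_three
    omega
  have := Pool.Agent.H25.EH.eh p B (univ \ D) (by omega) hle (by
    intro x hx y hy hxy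
    refine mem_sdiff.2 ⟨mem_univ _, fun hw => ?_⟩
    have hwB : -(x + y) ∈ B := hneg _ (mem_union_left _ (mem_inter.1 hw).1)
    refine key x hx y hy _ hwB hxy (fun e => ?_) (fun e => ?_) (by ring)
    · exact key2 _ hw y hy (by linear_combination -e)
    · exact key2 _ hw x hx (by linear_combination -e))
  rw [card_univ_sdiff, ZMod.card] at this
  have h5 : D.card ≤ p := by simpa [ZMod.card] using card_le_univ D
  omega

lemma upper (p : ℕ) [Fact p.Prime] (hp : 7 ≤ p) (A : Finset (ZMod p)) (hA : Free A) :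
    A.card ≤ p / 3 + 1 := by
  by_contra hcon
  by_cases h0 : (0 : ZMod p) ∈ A
  · have h1 := main p (by omega) (A.erase 0) (fun a ha b hb c hc => hA a (mem_of_mem_erase ha) b
      (mem_of_mem_erase hb) c (mem_of_mem_erase hc)) (notMem_erase _ _)
      (by rw [card_erase_of_mem h0]; omega)
    have h2 : A.erase 0 ∩ (A.erase 0).image Neg.neg = ∅ := by
      refine eq_empty_of_forall_notMem fun x hx => ?_
      obtain ⟨h3, h4⟩ := mem_inter.1 hx
      obtain ⟨y, hy, rfl⟩ := mem_image.1 h4
      rw [mem_erase] at h3 hy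
      refine hA y hy.2 (-y) h3.2 0 h0 (fun e => hy.1 ?_) hy.1 h3.1 true true true (by simp [sg])
      have : (2 : ZMod p) ≠ 0 := fun e => by
        have := Nat.le_of_dvd (by omega) ((ZMod.natCast_eq_zero_iff 2 p).1 (by simpa using e))
        omega
      exact (mul_eq_zero.1 (show 2 * y = 0 by linear_combination e)).resolve_left this
    rw [h2, card_erase_of_mem h0, card_empty] at h1
    omega
  · have h1 := main p (by omega) A hA h0 (by omega)
    have h2 : (A ∩ A.image Neg.neg).card ≤ A.card := card_le_card inter_subset_left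
    omega

lemma lower (p : ℕ) (hp : 7 ≤ p) : ∃ A : Finset (ZMod p), Free A ∧ A.card = p / 3 + 1 := by
  refine ⟨(Icc (p / 3) (2 * (p / 3))).image (fun n : ℕ => (n : ZMod p)), ?_, ?_⟩
  · intro a ha b hb c hc h1 h2 h3 s t u h
    obtain ⟨a, ha', rfl⟩ := mem_image.1 ha
    obtain ⟨b, hb', rfl⟩ := mem_image.1 hb
    obtain ⟨c, hc', rfl⟩ := mem_image.1 hc
    rw [mem_Icc] at ha' hb' hc'
    have e1 : a ≠ b := fun e => h1 (by rw [e])
    have e2 : a ≠ c := fun e => h2 (by rw [e])
    have e3 : b ≠ c := fun e => h3 (by rw [e])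
    have : ((sg s (a : ℤ) + sg t (b : ℤ) + sg u (c : ℤ) : ℤ) : ZMod p) = 0 := by
      rw [← h]; cases s <;> cases t <;> cases u <;> simp [sg]
    obtain ⟨q, hq⟩ := (ZMod.intCast_zmod_eq_zero_iff_dvd _ _).1 this
    have h4 : q ≤ -2 ∨ q = -1 ∨ q = 0 ∨ q = 1 ∨ 2 ≤ q := by omega
    have h5 : q ≤ -2 → (p : ℤ) * q ≤ p * (-2) := fun h => by nlinarith
    have h6 : 2 ≤ q → (p : ℤ) * 2 ≤ p * q := fun h => by nlinarith
    rcases h4 with h4 | rfl | rfl | rfl | h4
    all_goals
      cases s <;> cases t <;> cases u <;> simp only [sg, if_true, Bool.false_eq_true, if_false] at hq <;>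
        omega
  · rw [card_image_of_injOn, Nat.card_Icc]
    · omega
    · intro a ha b hb e
      simp only [coe_Icc, Set.mem_Icc] at ha hb
      have := (ZMod.natCast_eq_natCast_iff' _ _ _).1 e
      rwa [Nat.mod_eq_of_lt (by omega), Nat.mod_eq_of_lt (by omega)] at this

/-- The largest size of a set in `ZMod p` whose restricted signed `3`-fold sumset misses zero is
`p / 3 + 1` (rounded down), except that it is `2` for `p = 2` and `3` for `p = 5`. -/
theorem result (p : ℕ) (hp : p.Prime) :
    IsGreatest {m | ∃ A : Finset (ZMod p), Free A ∧ A.card = m}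
      (if p = 2 then 2 else if p = 5 then 3 else p / 3 + 1) := by
  by_cases h7 : 7 ≤ p
  · have := Fact.mk hp
    rw [if_neg (by omega), if_neg (by omega)]
    refine ⟨lower p h7, ?_⟩
    rintro _ ⟨A, hA, rfl⟩
    exact upper p h7 A hA
  · have : p = 2 ∨ p = 3 ∨ p = 5 := by
      have := hp.two_le
      interval_cases p <;> simp_all (config := { decide := true })
    rcases this with rfl | rfl | rfl
    · refine ⟨⟨{0, 1}, by decide, by decide⟩, ?_⟩
      rintro _ ⟨A, hA, rfl⟩
      revert A; decide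
    · refine ⟨⟨{0, 1}, by decide, by decide⟩, ?_⟩
      rintro _ ⟨A, hA, rfl⟩
      revert A; decide
    · refine ⟨⟨{0, 1, 2}, by decide, by decide⟩, ?_⟩
      rintro _ ⟨A, hA, rfl⟩
      revert A; decide +kernel

end Pool.Agent.Results.MP_6ea067_co.Value
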